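import Mathlib

/-!
# Means of periodic functions on `ℤ²`
-/

set_option autoImplicit false

namespace Pool.Agent.L0h45.EP

open Finset

theorem sum_shift {f : ℤ → ℝ} {n : ℕ} (hf : ∀ x, f (x + n) = f x) (a : ℤ) :
    ∑ i ∈ range n, f (a + i) = ∑ i ∈ range n, f (i : ℤ) := by
  have step : ∀ a : ℤ, ∑ i ∈ range n, f (a + 1 + i) = ∑ i ∈ range n, f (a + i) := by
    intro a
    have h1 := sum_range_succ' (fun i : ℕ => f (a + i)) n
    have h2 := sum_range_succ (fun i : ℕ => f (a + i)) n
    rw [h2] at h1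
    have h3 : ∑ i ∈ range n, f (a + 1 + i) = ∑ k ∈ range n, f (a + ((k + 1 : ℕ) : ℤ)) := by
      refine sum_congr rfl fun i _ => ?_
      congr 1
      push_cast
      ring
    rw [h3]
    have h4 := hf a
    simp only [Nat.cast_zero, add_zero] at h1
    rw [h4] at h1
    linarith
  induction a using Int.induction_on with
  | zero => simp
  | succ k ih => rw [step]; exact ih
  | pred k ih =>
    have h := step (-(k : ℤ) - 1)
    rw [sub_add_cancel] at h
    rw [← h]
    exact ih

theorem per_mul {f : ℤ → ℝ} {n : ℕ} (hf : ∀ x, f (x + n) = f x) (x k : ℤ) :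
    f (x + n * k) = f x := by
  induction k using Int.induction_on with
  | zero => simp
  | succ k ih =>
    have : x + n * ((k : ℤ) + 1) = (x + n * k) + n := by ring
    rw [this, hf, ih]
  | pred k ih =>
    have : x + n * (-(k : ℤ)) = (x + n * (-(k : ℤ) - 1)) + n := by ring
    rw [this, hf] at ih
    exact ih

theorem sum_mul' {f : ℤ → ℝ} {n : ℕ} (hf : ∀ x, f (x + n) = f x) (a : ℤ) (k : ℕ) :
    ∑ i ∈ range (k * n), f (a + i) = k * ∑ i ∈ range n, f (i : ℤ) := by
  induction k with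
  | zero => simp
  | succ k ih =>
    rw [Nat.succ_mul, sum_range_add, ih]
    have h : ∑ x ∈ range n, f (a + ((k * n + x : ℕ) : ℤ)) = ∑ i ∈ range n, f (i : ℤ) := by
      rw [← sum_shift hf (a + (k * n : ℕ))]
      refine sum_congr rfl fun i _ => ?_
      congr 1
      push_cast
      ring
    rw [h]
    push_cast
    ring

theorem sum_blocks (h : ℕ → ℝ) (A K : ℕ) :
    ∑ i ∈ range (A * K), h i = ∑ k ∈ range K, ∑ j ∈ range A, h (A * k + j) := by
  induction K with
  | zero => simp
  | succ K ih => rw [Nat.mul_succ, sum_range_add, ih, sum_range_succ]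

theorem sum_zmod {B : ℕ} [NeZero B] (u : ZMod B → ℝ) :
    ∑ k ∈ range B, u (k : ZMod B) = ∑ z : ZMod B, u z := by
  refine sum_nbij' (fun k => (k : ZMod B)) (fun z => z.val) ?_ ?_ ?_ ?_ ?_
  · intro k _
    exact mem_univ _
  · intro z _
    exact mem_range.2 (ZMod.val_lt z)
  · intro k hk
    exact ZMod.val_cast_of_lt (mem_range.1 hk)
  · intro z _
    exact ZMod.natCast_zmod_val z
  · intro k _
    rfl

theorem sum_affine_int {g : ℤ → ℝ} {A : ℤ} {B : ℕ} (hB : 0 < B) (hcop : IsCoprime (B : ℤ) A)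
    (hg : ∀ x, g (x + B) = g x) (j : ℤ) :
    ∑ k ∈ range B, g (A * k + j) = ∑ k ∈ range B, g (k : ℤ) := by
  have : NeZero B := ⟨hB.ne'⟩
  set u : ZMod B → ℝ := fun z => g (z.val : ℤ) with hu
  have hgu : ∀ x : ℤ, g x = u (x : ZMod B) := by
    intro x
    rw [hu]
    simp only
    have h1 : (((x : ZMod B).val : ℤ)) = x % B := ZMod.val_intCast x
    rw [h1]
    have h2 := per_mul hg (x % B) (x / B)
    rw [Int.emod_add_mul_ediv] at h2
    exact h2
  have h1 : ∑ k ∈ range B, g (A * k + j) = ∑ k ∈ range B, (fun z : ZMod B => u (A * z + j)) k := by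
    refine sum_congr rfl fun k _ => ?_
    rw [hgu]
    push_cast
    rfl
  have h2 : ∑ k ∈ range B, g (k : ℤ) = ∑ k ∈ range B, u (k : ZMod B) := by
    refine sum_congr rfl fun k _ => ?_
    rw [hgu]
    push_cast
    rfl
  have h3 := sum_zmod (B := B) (fun z : ZMod B => u (A * z + j))
  rw [h1, h2, sum_zmod, h3]
  have hunit : IsUnit (A : ZMod B) := (ZMod.coe_int_isUnit_iff_isCoprime A B).2 hcop
  have hbij : Function.Bijective (fun z : ZMod B => (A : ZMod B) * z + (j : ZMod B)) := by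
    rw [← Finite.injective_iff_bijective]
    intro z z' h
    simp only [add_left_inj] at h
    exact hunit.mul_left_cancel h
  exact hbij.sum_comp u

theorem sum_affine {g : ℤ → ℝ} {A B : ℕ} (hB : 0 < B) (hcop : A.Coprime B)
    (hg : ∀ x, g (x + B) = g x) (j : ℤ) :
    ∑ k ∈ range B, g (A * k + j) = ∑ k ∈ range B, g (k : ℤ) :=
  sum_affine_int hB (Nat.isCoprime_iff_coprime.2 hcop.symm) hg j

/-- the Chinese remainder theorem for sums in one variable -/
theorem sum_crt {f g : ℤ → ℝ} {A B : ℕ} (hB : 0 < B) (hcop : A.Coprime B)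
    (hf : ∀ x, f (x + A) = f x) (hg : ∀ x, g (x + B) = g x) :
    ∑ i ∈ range (A * B), f (i : ℤ) * g (i : ℤ) =
      (∑ i ∈ range A, f (i : ℤ)) * ∑ i ∈ range B, g (i : ℤ) := by
  rw [sum_blocks, sum_comm, sum_mul]
  refine sum_congr rfl fun j _ => ?_
  rw [← sum_affine hB hcop hg (j : ℤ), mul_sum]
  refine sum_congr rfl fun k _ => ?_
  push_cast
  congr 1
  have := per_mul hf (j : ℤ) (k : ℤ)
  rw [← this]
  congr 1
  ring

/-- periodic in both variables -/
structure Per (F : ℤ → ℤ → ℝ) (n : ℕ) : Prop where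
  l : ∀ x y, F (x + n) y = F x y
  r : ∀ x y, F x (y + n) = F x y

/-- the sum over a period -/
def sm (F : ℤ → ℤ → ℝ) (n : ℕ) : ℝ := ∑ i ∈ range n, ∑ j ∈ range n, F (i : ℤ) (j : ℤ)

theorem Per.mul {F : ℤ → ℤ → ℝ} {n : ℕ} (h : Per F n) (k : ℕ) : Per F (k * n) := by
  constructor
  · intro x y
    have := per_mul (f := fun x => F x y) (fun x => h.l x y) x k
    rw [← this]
    congr 1
    push_cast
    ring
  · intro x y
    have := per_mul (f := fun y => F x y) (fun y => h.r x y) y k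
    rw [← this]
    congr 1
    push_cast
    ring

theorem Per.prod {F G : ℤ → ℤ → ℝ} {n : ℕ} (hF : Per F n) (hG : Per G n) :
    Per (fun x y => F x y * G x y) n :=
  ⟨fun x y => by rw [hF.l, hG.l], fun x y => by rw [hF.r, hG.r]⟩

theorem sm_mul {F : ℤ → ℤ → ℝ} {n : ℕ} (h : Per F n) (k : ℕ) : sm F (k * n) = (k : ℝ) ^ 2 * sm F n := by
  unfold sm
  have h1 : ∀ i : ℤ, ∑ j ∈ range (k * n), F i (j : ℤ) = k * ∑ j ∈ range n, F i (j : ℤ) := by
    intro i
    have := sum_mul' (f := fun y => F i y) (fun y => h.r i y) 0 k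
    simp only [zero_add] at this
    exact this
  have h2 := sum_mul' (f := fun x => ∑ j ∈ range n, F x (j : ℤ)) (n := n)
    (fun x => sum_congr rfl fun j _ => h.l x j) 0 k
  simp only [zero_add] at h2
  simp only [h1]
  rw [← mul_sum, h2]
  ring

theorem sm_crt {F G : ℤ → ℤ → ℝ} {A B : ℕ} (hB : 0 < B) (hcop : A.Coprime B) (hF : Per F A)
    (hG : Per G B) : sm (fun x y => F x y * G x y) (A * B) = sm F A * sm G B := by
  unfold sm
  have h1 : ∀ i : ℤ, ∑ j ∈ range (A * B), F i (j : ℤ) * G i (j : ℤ) =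
      (∑ j ∈ range A, F i (j : ℤ)) * ∑ j ∈ range B, G i (j : ℤ) := fun i =>
    sum_crt hB hcop (fun y => hF.r i y) (fun y => hG.r i y)
  simp only [h1]
  exact sum_crt (f := fun x => ∑ j ∈ range A, F x (j : ℤ)) (g := fun x => ∑ j ∈ range B, G x (j : ℤ))
    hB hcop (fun x => sum_congr rfl fun j _ => hF.l x j) (fun x => sum_congr rfl fun j _ => hG.l x j)

/-- the mean -/
noncomputable def mn (F : ℤ → ℤ → ℝ) (n : ℕ) : ℝ := sm F n / (n : ℝ) ^ 2

theorem mn_mul {F : ℤ → ℤ → ℝ} {n : ℕ} (h : Per F n) {k : ℕ} (hk : 0 < k) :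
    mn F (k * n) = mn F n := by
  unfold mn
  rw [sm_mul h]
  have : (k : ℝ) ≠ 0 := by exact_mod_cast hk.ne'
  push_cast
  rw [mul_pow, mul_div_mul_left _ _ (pow_ne_zero 2 this)]

theorem mn_crt {F G : ℤ → ℤ → ℝ} {A B : ℕ} (hB : 0 < B) (hcop : A.Coprime B) (hF : Per F A)
    (hG : Per G B) : mn (fun x y => F x y * G x y) (A * B) = mn F A * mn G B := by
  unfold mn
  rw [sm_crt hB hcop hF hG]
  push_cast
  rw [mul_pow, div_mul_div_comm]

theorem mn_one_of {n : ℕ} (hn : 0 < n) (c : ℝ) : mn (fun _ _ => c) n = c := by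
  unfold mn sm
  have : (n : ℝ) ≠ 0 := by exact_mod_cast hn.ne'
  simp only [sum_const, card_range, nsmul_eq_mul]
  field_simp

theorem mn_add (F G : ℤ → ℤ → ℝ) (n : ℕ) :
    mn (fun x y => F x y + G x y) n = mn F n + mn G n := by
  unfold mn sm
  simp only [sum_add_distrib]
  rw [add_div]

theorem mn_smul (c : ℝ) (F : ℤ → ℤ → ℝ) (n : ℕ) :
    mn (fun x y => c * F x y) n = c * mn F n := by
  unfold mn sm
  simp only [← mul_sum]
  rw [mul_div_assoc]

/-- products over primes -/
theorem mn_prod (K : ℕ) (F : ℕ → ℤ → ℤ → ℝ) (S : Finset ℕ) (hS : ∀ p ∈ S, p.Prime)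
    (hF : ∀ p ∈ S, Per (F p) (p ^ K)) :
    Per (fun x y => ∏ p ∈ S, F p x y) (∏ p ∈ S, p ^ K) ∧
    mn (fun x y => ∏ p ∈ S, F p x y) (∏ p ∈ S, p ^ K) = ∏ p ∈ S, mn (F p) (p ^ K) := by
  classical
  induction S using Finset.induction_on with
  | empty =>
    refine ⟨⟨fun _ _ => rfl, fun _ _ => rfl⟩, ?_⟩
    simp only [prod_empty]
    exact mn_one_of one_pos 1
  | insert q S hq ih =>
    obtain ⟨h1, h2⟩ := ih (fun p hp => hS p (mem_insert_of_mem hp))
      (fun p hp => hF p (mem_insert_of_mem hp))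
    have hFq := hF q (mem_insert_self q S)
    have hqp := hS q (mem_insert_self q S)
    have hcop : (q ^ K).Coprime (∏ p ∈ S, p ^ K) := by
      refine Nat.Coprime.prod_right fun p hp => Nat.Coprime.pow _ _ ?_
      rw [Nat.coprime_primes hqp (hS p (mem_insert_of_mem hp))]
      rintro rfl
      exact hq hp
    have hpos : 0 < ∏ p ∈ S, p ^ K := prod_pos fun p hp =>
      pow_pos (hS p (mem_insert_of_mem hp)).pos _
    constructor
    · have a1 : Per (F q) (∏ p ∈ insert q S, p ^ K) := by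
        rw [prod_insert hq, mul_comm]
        exact hFq.mul _
      have a2 : Per (fun x y => ∏ p ∈ S, F p x y) (∏ p ∈ insert q S, p ^ K) := by
        rw [prod_insert hq]
        exact h1.mul _
      have a3 := a1.prod a2
      refine ⟨fun x y => ?_, fun x y => ?_⟩
      · have := a3.l x y
        simp only [prod_insert hq] at this ⊢
        exact this
      · have := a3.r x y
        simp only [prod_insert hq] at this ⊢
        exact this
    · simp only [prod_insert hq]
      rw [mn_crt hpos hcop hFq h1, h2]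

/-- indicator -/
noncomputable def ind (p : Prop) : ℝ := by
  classical
  exact if p then 1 else 0

theorem ind_true {p : Prop} (h : p) : ind p = 1 := by
  unfold ind
  rw [if_pos h]

theorem ind_false {p : Prop} (h : ¬ p) : ind p = 0 := by
  unfold ind
  rw [if_neg h]

theorem ind_congr {p q : Prop} (h : p ↔ q) : ind p = ind q := by
  rw [propext h]

theorem ind_and (p q : Prop) : ind (p ∧ q) = ind p * ind q := by
  by_cases hp : p
  · by_cases hq : q
    · rw [ind_true ⟨hp, hq⟩, ind_true hp, ind_true hq, one_mul]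
    · rw [ind_false (fun h => hq h.2), ind_false hq, mul_zero]
  · rw [ind_false (fun h => hp h.1), ind_false hp, zero_mul]

theorem ind_not (p : Prop) : ind (¬ p) = 1 - ind p := by
  by_cases hp : p
  · rw [ind_false (not_not.2 hp), ind_true hp, sub_self]
  · rw [ind_true hp, ind_false hp, sub_zero]

theorem ind_forall {ι : Type*} (S : Finset ι) (P : ι → Prop) :
    ind (∀ i ∈ S, P i) = ∏ i ∈ S, ind (P i) := by
  classical
  by_cases h : ∀ i ∈ S, P i
  · rw [ind_true h, prod_eq_one fun i hi => ind_true (h i hi)]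
  · rw [ind_false h]
    push Not at h
    obtain ⟨i, hi, hP⟩ := h
    exact (prod_eq_zero hi (ind_false hP)).symm

end Pool.Agent.L0h45.EP
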