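import Mathlib
import Pool.Agent.L0h45.EP.Per

/-!
# Local means for Weierstrass equations
-/

set_option autoImplicit false

namespace Pool.Agent.L0h45.EP

open Finset

/-- the equation with given `a₁, a₂, a₃` -/
def cv (τ : ℤ × ℤ × ℤ) (a b : ℤ) : WeierstrassCurve ℤ := ⟨τ.1, τ.2.1, τ.2.2, a, b⟩

/-- its discriminant -/
def dl (τ : ℤ × ℤ × ℤ) (a b : ℤ) : ℤ := (cv τ a b).Δ

/-- its `c₄` -/
def xx (τ : ℤ × ℤ × ℤ) (a : ℤ) : ℤ := (cv τ a 0).c₄

/-- its `c₆` -/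
def yy (τ : ℤ × ℤ × ℤ) (a b : ℤ) : ℤ := (cv τ a b).c₆

variable {τ : ℤ × ℤ × ℤ}

theorem xx_eq (a b : ℤ) : (cv τ a b).c₄ = xx τ a := by
  simp only [xx, cv, WeierstrassCurve.c₄, WeierstrassCurve.b₂, WeierstrassCurve.b₄]

theorem rel (a b : ℤ) : xx τ a ^ 3 - yy τ a b ^ 2 = 1728 * dl τ a b := by
  rw [← xx_eq a b]
  exact (cv τ a b).c_relation.symm

theorem xx_add (a h : ℤ) : xx τ (a + h) = xx τ a - 48 * h := by
  simp only [xx, cv, WeierstrassCurve.c₄, WeierstrassCurve.b₂, WeierstrassCurve.b₄]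
  ring

theorem yy_add (a b h : ℤ) : yy τ a (b + h) = yy τ a b - 864 * h := by
  simp only [yy, cv, WeierstrassCurve.c₆, WeierstrassCurve.b₂, WeierstrassCurve.b₄,
    WeierstrassCurve.b₆]
  ring

theorem dl_add (a b h : ℤ) : dl τ a (b + h) = dl τ a b + yy τ a b * h - 432 * h ^ 2 := by
  simp only [dl, yy, cv, WeierstrassCurve.c₆, WeierstrassCurve.Δ, WeierstrassCurve.b₂,
    WeierstrassCurve.b₄, WeierstrassCurve.b₆, WeierstrassCurve.b₈]
  ring

theorem dl_add' (a b h : ℤ) : h ∣ dl τ (a + h) b - dl τ a b := by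
  refine ⟨(cv τ a b).b₂ ^ 2 * (τ.1 * τ.2.2 + 2 * a + h) -
    8 * (6 * (cv τ a b).b₄ ^ 2 + 12 * (cv τ a b).b₄ * h + 8 * h ^ 2) +
    18 * (cv τ a b).b₂ * (cv τ a b).b₆, ?_⟩
  simp only [dl, cv, WeierstrassCurve.Δ, WeierstrassCurve.b₂,
    WeierstrassCurve.b₄, WeierstrassCurve.b₆, WeierstrassCurve.b₈]
  ring

theorem dvd_dl_l {t n : ℤ} (h : t ∣ n) (a b : ℤ) : t ∣ dl τ (a + n) b ↔ t ∣ dl τ a b := by
  have h1 := h.trans (dl_add' (τ := τ) a b n)
  constructor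
  · intro h2
    have := dvd_sub h2 h1
    rwa [sub_sub_cancel] at this
  · intro h2
    have := dvd_add h1 h2
    rwa [sub_add_cancel] at this

theorem dvd_dl_r {t n : ℤ} (h : t ∣ n) (a b : ℤ) : t ∣ dl τ a (b + n) ↔ t ∣ dl τ a b := by
  rw [dl_add]
  have h1 : t ∣ yy τ a b * n - 432 * n ^ 2 :=
    dvd_sub (h.mul_left _) ((dvd_pow h two_ne_zero).mul_left _)
  have h2 : dl τ a b + yy τ a b * n - 432 * n ^ 2 = dl τ a b + (yy τ a b * n - 432 * n ^ 2) := by ring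
  rw [h2]
  exact dvd_add_left h1

theorem dvd_xx {t n : ℤ} (h : t ∣ n) (a : ℤ) : t ∣ xx τ (a + n) ↔ t ∣ xx τ a := by
  rw [xx_add]
  exact dvd_sub_left (h.mul_left _)

/-- `p ^ j ∣ Δ` and `p ∤ c₄` -/
def Ej (τ : ℤ × ℤ × ℤ) (p j : ℕ) (a b : ℤ) : Prop := (p : ℤ) ^ j ∣ dl τ a b ∧ ¬ (p : ℤ) ∣ xx τ a

theorem Ej_per (τ : ℤ × ℤ × ℤ) (p : ℕ) {j : ℕ} (hj : 1 ≤ j) :
    Per (fun a b => ind (Ej τ p j a b)) (p ^ j) := by
  have h1 : (p : ℤ) ∣ ((p ^ j : ℕ) : ℤ) := by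
    push_cast
    exact dvd_pow_self _ (by omega)
  have h2 : (p : ℤ) ^ j ∣ ((p ^ j : ℕ) : ℤ) := by
    push_cast
    exact dvd_rfl
  constructor
  · intro a b
    refine ind_congr ?_
    unfold Ej
    rw [dvd_dl_l h2, dvd_xx h1]
  · intro a b
    refine ind_congr ?_
    unfold Ej
    rw [dvd_dl_r h2]

theorem dvd_per (p : ℕ) : Per (fun a b => ind ((p : ℤ) ∣ dl τ a b)) p :=
  ⟨fun a b => ind_congr (dvd_dl_l dvd_rfl a b), fun a b => ind_congr (dvd_dl_r dvd_rfl a b)⟩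

/-- one multiple of `p` among `p` consecutive integers -/
theorem sum_dvd (p : ℕ) (hp : p.Prime) : ∑ k ∈ range p, ind ((p : ℤ) ∣ (k : ℤ)) = 1 := by
  rw [sum_eq_single 0]
  · exact ind_true (by simp)
  · intro k hk hk0
    refine ind_false fun h => hk0 ?_
    have h1 : p ∣ k := by exact_mod_cast h
    exact Nat.eq_zero_of_dvd_of_lt h1 (mem_range.1 hk)
  · intro h
    exact absurd (mem_range.2 hp.pos) h

/-- the lifting of roots -/
theorem lift_sum {p : ℕ} (hp : p.Prime) {j : ℕ} (hj : 1 ≤ j) (a : ℤ) :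
    ∑ b ∈ range (p ^ (j + 1)), ind (Ej τ p (j + 1) a b) = ∑ b ∈ range (p ^ j), ind (Ej τ p j a b) := by
  by_cases hx : (p : ℤ) ∣ xx τ a
  · rw [sum_eq_zero fun b _ => ind_false fun h => h.2 hx,
      sum_eq_zero fun b _ => ind_false fun h => h.2 hx]
  rw [pow_succ, sum_blocks (fun b : ℕ => ind (Ej τ p (j + 1) a b)) (p ^ j) p, sum_comm]
  refine sum_congr rfl fun b hb => ?_
  by_cases h1 : (p : ℤ) ^ j ∣ dl τ a b
  · rw [ind_true (show Ej τ p j a b from ⟨h1, hx⟩)]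
    obtain ⟨d, hd⟩ := h1
    have hpp : Prime (p : ℤ) := Nat.prime_iff_prime_int.1 hp
    have hp1 : (p : ℤ) ∣ (p : ℤ) ^ j := dvd_pow_self _ (by omega)
    have hy : IsCoprime (p : ℤ) (yy τ a b) := by
      rw [hpp.irreducible.coprime_iff_not_dvd]
      intro hy
      apply hx
      have h2 := rel (τ := τ) a b
      have h3 : (p : ℤ) ∣ xx τ a ^ 3 := by
        have h4 : xx τ a ^ 3 = 1728 * dl τ a b + yy τ a b ^ 2 := by linarith
        rw [h4]
        refine dvd_add (Dvd.dvd.mul_left ?_ _) (dvd_pow hy two_ne_zero)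
        rw [hd]
        exact hp1.mul_right _
      exact hpp.dvd_of_dvd_pow h3
    have h4 := sum_affine_int (g := fun x => ind ((p : ℤ) ∣ x)) (A := yy τ a b) hp.pos hy
      (fun x => ind_congr (dvd_add_left dvd_rfl)) d
    rw [sum_dvd p hp] at h4
    rw [← h4]
    refine sum_congr rfl fun k _ => ind_congr ?_
    unfold Ej
    have h5 : ((p ^ j * k + b : ℕ) : ℤ) = b + (p : ℤ) ^ j * k := by push_cast; ring
    rw [h5, dl_add, hd]
    have h6 : (p : ℤ) ^ j * d + yy τ a b * ((p : ℤ) ^ j * k) - 432 * ((p : ℤ) ^ j * k) ^ 2 =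
        (p : ℤ) ^ j * ((yy τ a b * k + d) - (p : ℤ) ^ j * (432 * k ^ 2)) := by ring
    rw [h6, pow_succ, mul_dvd_mul_iff_left (pow_ne_zero _ hpp.ne_zero),
      dvd_sub_left (hp1.mul_right _)]
    exact ⟨fun h => h.1, fun h => ⟨h, hx⟩⟩
  · rw [ind_false (fun h : Ej τ p j a b => h1 h.1)]
    refine sum_eq_zero fun k _ => ind_false fun h => h1 ?_
    have h2 := (pow_dvd_pow (p : ℤ) (Nat.le_succ j)).trans h.1
    have h5 : ((p ^ j * k + b : ℕ) : ℤ) = b + (p : ℤ) ^ j * k := by push_cast; ring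
    rw [h5] at h2
    exact (dvd_dl_r (Dvd.intro _ rfl) a b).1 h2

theorem sm_succ {p : ℕ} (hp : p.Prime) {j : ℕ} (hj : 1 ≤ j) :
    sm (fun a b => ind (Ej τ p (j + 1) a b)) (p ^ (j + 1)) =
      p * sm (fun a b => ind (Ej τ p j a b)) (p ^ j) := by
  unfold sm
  simp only [lift_sum hp hj]
  have h := sum_mul' (f := fun a : ℤ => ∑ b ∈ range (p ^ j), ind (Ej τ p j a b)) (n := p ^ j)
    (fun a => sum_congr rfl fun b _ => (Ej_per τ p hj).l a b) 0 p
  simp only [zero_add] at h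
  rw [pow_succ, mul_comm (p ^ j) p]
  exact h

/-- the number of the nodal equations modulo `p` -/
noncomputable def nn (τ : ℤ × ℤ × ℤ) (p : ℕ) : ℝ := sm (fun a b => ind (Ej τ p 1 a b)) p

/-- the number of the singular equations modulo `p` -/
noncomputable def ss (τ : ℤ × ℤ × ℤ) (p : ℕ) : ℝ := sm (fun a b => ind ((p : ℤ) ∣ dl τ a b)) p

theorem sm_Ej {p : ℕ} (hp : p.Prime) (j : ℕ) :
    sm (fun a b => ind (Ej τ p (j + 1) a b)) (p ^ (j + 1)) = (p : ℝ) ^ j * nn τ p := by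
  induction j with
  | zero => rw [zero_add, pow_one, pow_zero, one_mul]; rfl
  | succ j ih => rw [sm_succ hp (by omega), ih]; ring

theorem mn_Ej {p : ℕ} (hp : p.Prime) {j K : ℕ} (hK : j + 1 ≤ K) :
    mn (fun a b => ind (Ej τ p (j + 1) a b)) (p ^ K) = nn τ p / (p : ℝ) ^ (j + 2) := by
  have h1 : p ^ K = p ^ (K - (j + 1)) * p ^ (j + 1) := by
    rw [← pow_add]
    congr 1
    omega
  rw [h1, mn_mul (Ej_per τ p (by omega)) (pow_pos hp.pos _)]
  unfold mn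
  rw [sm_Ej hp]
  have hp0 : (p : ℝ) ≠ 0 := by exact_mod_cast hp.ne_zero
  push_cast
  field_simp
  ring

theorem mn_dvd {p : ℕ} (hp : p.Prime) {K : ℕ} (hK : 1 ≤ K) :
    mn (fun a b => ind ((p : ℤ) ∣ dl τ a b)) (p ^ K) = ss τ p / (p : ℝ) ^ 2 := by
  have h1 : p ^ K = p ^ (K - 1) * p := by
    rw [← pow_succ]
    congr 1
    omega
  rw [h1, mn_mul (dvd_per p) (pow_pos hp.pos _)]
  rfl

/-- the local condition for the index `m` -/
def Lp (τ : ℤ × ℤ × ℤ) (m p : ℕ) (a b : ℤ) : Prop :=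
  (p ∣ m → ¬ (p : ℤ) ∣ xx τ a ∧ (p : ℤ) ^ (m.factorization p + 1) ∣ dl τ a b ∧
    ¬ (p : ℤ) ^ (m.factorization p + 2) ∣ dl τ a b) ∧
  (¬ p ∣ m → ¬ (p : ℤ) ^ 2 ∣ dl τ a b ∧ ¬ ((p : ℤ) ∣ xx τ a ∧ (p : ℤ) ∣ dl τ a b))

/-- the local mean in terms of the numbers modulo `p` -/
noncomputable def lc (p e : ℕ) (n s : ℝ) : ℝ :=
  if e = 0 then 1 - s / (p : ℝ) ^ 2 + n / (p : ℝ) ^ 2 - n / (p : ℝ) ^ 3
  else n / (p : ℝ) ^ (e + 2) - n / (p : ℝ) ^ (e + 3)

theorem Lp_per {m p : ℕ} (K : ℕ) (hK : m.factorization p + 2 ≤ K) :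
    Per (fun a b => ind (Lp τ m p a b)) (p ^ K) := by
  have h0 : ∀ i : ℕ, i ≤ K → (p : ℤ) ^ i ∣ ((p ^ K : ℕ) : ℤ) := by
    intro i hi
    push_cast
    exact pow_dvd_pow _ hi
  have h1 : (p : ℤ) ∣ ((p ^ K : ℕ) : ℤ) := by
    have := h0 1 (by omega)
    rwa [pow_one] at this
  constructor
  · intro a b
    refine ind_congr ?_
    unfold Lp
    rw [dvd_xx h1, dvd_dl_l h1, dvd_dl_l (h0 2 (by omega)), dvd_dl_l (h0 _ (by omega)),
      dvd_dl_l (h0 _ hK)]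
  · intro a b
    refine ind_congr ?_
    unfold Lp
    rw [dvd_dl_r h1, dvd_dl_r (h0 2 (by omega)), dvd_dl_r (h0 _ (by omega)), dvd_dl_r (h0 _ hK)]

theorem mn_sub (F G : ℤ → ℤ → ℝ) (n : ℕ) :
    mn (fun x y => F x y - G x y) n = mn F n - mn G n := by
  unfold mn sm
  simp only [sum_sub_distrib]
  rw [sub_div]

/-- **the local means** -/
theorem mn_Lp {m p : ℕ} (hm : m ≠ 0) (hp : p.Prime) (K : ℕ) (hK : m.factorization p + 2 ≤ K) :
    mn (fun a b => ind (Lp τ m p a b)) (p ^ K) = lc p (m.factorization p) (nn τ p) (ss τ p) := by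
  by_cases hpm : p ∣ m
  · have he : m.factorization p ≠ 0 := by
      have := (hp.dvd_iff_one_le_factorization hm).1 hpm
      omega
    have h1 : (fun a b => ind (Lp τ m p a b)) = fun a b =>
        ind (Ej τ p (m.factorization p + 1) a b) - ind (Ej τ p (m.factorization p + 2) a b) := by
      funext a b
      unfold Lp Ej
      by_cases h2 : (p : ℤ) ∣ xx τ a
      · rw [ind_false (fun h => (h.1 hpm).1 h2), ind_false (fun h => h.2 h2),
          ind_false (fun h => h.2 h2), sub_zero]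
      by_cases h3 : (p : ℤ) ^ (m.factorization p + 1) ∣ dl τ a b
      · rw [ind_true (p := _ ∧ _) ⟨h3, h2⟩]
        by_cases h4 : (p : ℤ) ^ (m.factorization p + 2) ∣ dl τ a b
        · rw [ind_false (fun h => (h.1 hpm).2.2 h4), ind_true (p := _ ∧ _) ⟨h4, h2⟩, sub_self]
        · rw [ind_true ⟨fun _ => ⟨h2, h3, h4⟩, fun h => absurd hpm h⟩, ind_false (fun h => h4 h.1),
            sub_zero]
      · rw [ind_false (fun h => h3 (h.1 hpm).2.1), ind_false (fun h => h3 h.1),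
          ind_false (fun h => h3 ((pow_dvd_pow _ (Nat.le_succ _)).trans h.1)), sub_zero]
    rw [h1, mn_sub, mn_Ej hp (j := m.factorization p) (by omega),
      mn_Ej hp (j := m.factorization p + 1) (by omega)]
    unfold lc
    rw [if_neg he]
  · have he : m.factorization p = 0 := Nat.factorization_eq_zero_of_not_dvd hpm
    have h1 : (fun a b => ind (Lp τ m p a b)) = fun a b =>
        (1 - ind ((p : ℤ) ∣ dl τ a b)) + (ind (Ej τ p 1 a b) - ind (Ej τ p 2 a b)) := by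
      funext a b
      unfold Lp Ej
      rw [pow_one]
      by_cases h3 : (p : ℤ) ∣ dl τ a b
      · by_cases h2 : (p : ℤ) ∣ xx τ a
        · rw [ind_false (fun h => (h.2 hpm).2 ⟨h2, h3⟩), ind_true h3, ind_false (fun h => h.2 h2),
            ind_false (fun h => h.2 h2)]
          ring
        · rw [ind_true h3, ind_true (p := _ ∧ _) ⟨h3, h2⟩]
          by_cases h4 : (p : ℤ) ^ 2 ∣ dl τ a b
          · rw [ind_false (fun h => (h.2 hpm).1 h4), ind_true (p := _ ∧ _) ⟨h4, h2⟩]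
            ring
          · rw [ind_true ⟨fun h => absurd h hpm, fun _ => ⟨h4, fun h => h2 h.1⟩⟩,
              ind_false (fun h => h4 h.1)]
            ring
      · have h4 : ¬ (p : ℤ) ^ 2 ∣ dl τ a b := fun h => h3 ((dvd_pow_self _ two_ne_zero).trans h)
        rw [ind_true ⟨fun h => absurd h hpm, fun _ => ⟨h4, fun h => h3 h.2⟩⟩, ind_false h3,
          ind_false (fun h => h3 h.1), ind_false (fun h => h4 h.1)]
        ring
    rw [h1, mn_add, mn_sub, mn_sub, mn_one_of (pow_pos hp.pos _), mn_dvd hp (by omega),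
      mn_Ej hp (j := 0) (by omega), mn_Ej hp (j := 1) (by omega)]
    unfold lc
    rw [he, if_pos rfl]
    ring

end Pool.Agent.L0h45.EP
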