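import Mathlib
import Pool.Agent.L0h45.EP.Lc

/-!
# The numbers modulo `p` and the local densities
-/

set_option autoImplicit false

namespace Pool.Agent.L0h45.EP

open Finset

theorem cusp_zmod (p : ℕ) [Fact p.Prime] :
    ∑ z : ZMod p, ∑ w : ZMod p, ind (z ^ 3 = w ^ 2 ∧ z ≠ 0) = (p : ℝ) - 1 := by
  classical
  have h1 : ∑ z : ZMod p, ∑ w : ZMod p, ind (z ^ 3 = w ^ 2 ∧ z ≠ 0) =
      (((univ : Finset (ZMod p × ZMod p)).filter (fun q => q.1 ^ 3 = q.2 ^ 2 ∧ q.1 ≠ 0)).card : ℝ) := by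
    rw [card_filter, ← univ_product_univ, sum_product]
    push_cast
    refine sum_congr rfl fun z _ => sum_congr rfl fun w _ => ?_
    by_cases h : z ^ 3 = w ^ 2 ∧ z ≠ 0
    · rw [ind_true h, if_pos h]
    · rw [ind_false h, if_neg h]
  have h2 : ((univ : Finset (ZMod p × ZMod p)).filter (fun q => q.1 ^ 3 = q.2 ^ 2 ∧ q.1 ≠ 0)).card =
      ((univ : Finset (ZMod p)).erase 0).card := by
    symm
    refine card_nbij' (fun l => (l ^ 2, l ^ 3)) (fun q => q.2 / q.1) ?_ ?_ ?_ ?_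
    · intro l hl
      have hl0 : l ≠ 0 := (mem_erase.1 hl).1
      refine mem_filter.2 ⟨mem_univ _, ?_, pow_ne_zero _ hl0⟩
      ring
    · intro q hq
      obtain ⟨-, h3, h4⟩ := mem_filter.1 hq
      refine mem_erase.2 ⟨?_, mem_univ _⟩
      refine div_ne_zero ?_ h4
      intro h5
      rw [h5, zero_pow two_ne_zero] at h3
      exact h4 (pow_eq_zero_iff (by norm_num) |>.1 h3)
    · intro l hl
      have hl0 : l ≠ 0 := (mem_erase.1 hl).1
      simp only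
      field_simp
    · intro q hq
      obtain ⟨-, h3, h4⟩ := mem_filter.1 hq
      have h5 : (q.2 / q.1) ^ 2 = q.1 := by
        rw [div_pow, ← h3]
        field_simp
      refine Prod.ext h5 ?_
      show (q.2 / q.1) ^ 3 = q.2
      rw [pow_succ, h5]
      field_simp
  rw [h1, h2, card_erase_of_mem (mem_univ _), card_univ, ZMod.card]
  have : 1 ≤ p := (Fact.out : p.Prime).one_lt.le
  push_cast [Nat.cast_sub this]
  ring

theorem cusp_sum {p : ℕ} (hp : p.Prime) :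
    ∑ x ∈ range p, ∑ y ∈ range p, ind ((p : ℤ) ∣ (x : ℤ) ^ 3 - (y : ℤ) ^ 2 ∧ ¬ (p : ℤ) ∣ (x : ℤ)) =
      (p : ℝ) - 1 := by
  have : Fact p.Prime := ⟨hp⟩
  rw [← cusp_zmod p, ← sum_zmod]
  refine sum_congr rfl fun x _ => ?_
  rw [← sum_zmod]
  refine sum_congr rfl fun y _ => ind_congr ?_
  rw [← ZMod.intCast_zmod_eq_zero_iff_dvd, ← ZMod.intCast_zmod_eq_zero_iff_dvd]
  push_cast
  rw [sub_eq_zero]

/-- change of variables -/
theorem sm_change {p : ℕ} (hp : p.Prime) (h5 : 5 ≤ p) (τ : ℤ × ℤ × ℤ) (G : ℤ → ℤ → ℝ)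
    (hG : Per G p) : ∑ a ∈ range p, ∑ b ∈ range p, G (xx τ a) (yy τ a b) = sm G p := by
  have hc : ∀ t : ℤ, IsCoprime (p : ℤ) t ↔ ¬ (p : ℤ) ∣ t := fun t =>
    (Nat.prime_iff_prime_int.1 hp).irreducible.coprime_iff_not_dvd
  have h6 : ¬ (p : ℤ) ∣ 6 := by
    intro h
    have h1 : p ∣ 6 := by exact_mod_cast h
    have h2 := Nat.le_of_dvd (by norm_num) h1
    interval_cases p
    · norm_num at h1
    · norm_num at hp
  have hpp := Nat.prime_iff_prime_int.1 hp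
  have h48 : IsCoprime (p : ℤ) (-48) := by
    rw [hc]
    intro h
    have h1 : (p : ℤ) ∣ 6 ^ 5 := by
      have : (6 : ℤ) ^ 5 = (-48) * (-162) := by norm_num
      rw [this]
      exact h.mul_right _
    exact h6 (hpp.dvd_of_dvd_pow h1)
  have h864 : IsCoprime (p : ℤ) (-864) := by
    rw [hc]
    intro h
    have h1 : (p : ℤ) ∣ 6 ^ 5 := by
      have : (6 : ℤ) ^ 5 = (-864) * (-9) := by norm_num
      rw [this]
      exact h.mul_right _
    exact h6 (hpp.dvd_of_dvd_pow h1)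
  have e1 : ∀ a : ℤ, ∑ b ∈ range p, G (xx τ a) (yy τ a b) = ∑ y ∈ range p, G (xx τ a) (y : ℤ) := by
    intro a
    rw [← sum_affine_int (g := fun y => G (xx τ a) y) hp.pos h864 (fun y => hG.r _ y) (yy τ a 0)]
    refine sum_congr rfl fun b _ => ?_
    congr 1
    have := yy_add (τ := τ) a 0 b
    rw [zero_add] at this
    rw [this]
    ring
  simp only [e1]
  unfold sm
  rw [← sum_affine_int (g := fun x => ∑ y ∈ range p, G x (y : ℤ)) hp.pos h48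
    (fun x => sum_congr rfl fun y _ => hG.l x _) (xx τ 0)]
  refine sum_congr rfl fun a _ => ?_
  have := xx_add (τ := τ) 0 a
  rw [zero_add] at this
  rw [this]
  refine sum_congr rfl fun y _ => ?_
  congr 1
  ring

theorem dvd_dl_iff {p : ℕ} (hp : p.Prime) (h5 : 5 ≤ p) (τ : ℤ × ℤ × ℤ) (a b : ℤ) :
    (p : ℤ) ∣ dl τ a b ↔ (p : ℤ) ∣ xx τ a ^ 3 - yy τ a b ^ 2 := by
  rw [rel]
  have hpp := Nat.prime_iff_prime_int.1 hp
  constructor
  · exact fun h => h.mul_left _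
  · intro h
    rcases hpp.dvd_or_dvd h with h1 | h1
    · exfalso
      have h2 : (1728 : ℤ) ∣ 12 ^ 3 := by norm_num
      have h3 := hpp.dvd_of_dvd_pow (h1.trans h2)
      have h4 : p ∣ 12 := by exact_mod_cast h3
      have h7 := Nat.le_of_dvd (by norm_num) h4
      interval_cases p <;> revert hp h4 <;> decide
    · exact h1

theorem nn_eq {p : ℕ} (hp : p.Prime) (h5 : 5 ≤ p) (τ : ℤ × ℤ × ℤ) : nn τ p = (p : ℝ) - 1 := by
  rw [← cusp_sum hp]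
  set G : ℤ → ℤ → ℝ := fun x y => ind ((p : ℤ) ∣ x ^ 3 - y ^ 2 ∧ ¬ (p : ℤ) ∣ x) with hG
  have hper : Per G p := by
    constructor
    · intro x y
      refine ind_congr ?_
      have h1 : (x + p) ^ 3 - y ^ 2 = (x ^ 3 - y ^ 2) + p * (3 * x ^ 2 + 3 * x * p + p ^ 2) := by ring
      rw [h1, dvd_add_left (Dvd.intro _ rfl), dvd_add_left dvd_rfl]
    · intro x y
      refine ind_congr ?_
      have h1 : x ^ 3 - (y + p) ^ 2 = (x ^ 3 - y ^ 2) + p * (-(2 * y) - p) := by ring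
      rw [h1, dvd_add_left (Dvd.intro _ rfl)]
  have h1 := sm_change hp h5 τ G hper
  unfold nn sm
  unfold sm at h1
  rw [hG] at h1
  rw [← h1]
  refine sum_congr rfl fun a _ => sum_congr rfl fun b _ => ind_congr ?_
  unfold Ej
  rw [pow_one, dvd_dl_iff hp h5]

theorem ss_eq {p : ℕ} (hp : p.Prime) (h5 : 5 ≤ p) (τ : ℤ × ℤ × ℤ) : ss τ p = (p : ℝ) := by
  set G : ℤ → ℤ → ℝ := fun x y => ind ((p : ℤ) ∣ x ^ 3 - y ^ 2) with hG
  have hpp := Nat.prime_iff_prime_int.1 hp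
  have hper : Per G p := by
    constructor
    · intro x y
      refine ind_congr ?_
      have h1 : (x + p) ^ 3 - y ^ 2 = (x ^ 3 - y ^ 2) + p * (3 * x ^ 2 + 3 * x * p + p ^ 2) := by ring
      rw [h1, dvd_add_left (Dvd.intro _ rfl)]
    · intro x y
      refine ind_congr ?_
      have h1 : x ^ 3 - (y + p) ^ 2 = (x ^ 3 - y ^ 2) + p * (-(2 * y) - p) := by ring
      rw [h1, dvd_add_left (Dvd.intro _ rfl)]
  have h1 := sm_change hp h5 τ G hper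
  have h2 : ss τ p = sm G p := by
    rw [← h1]
    unfold ss sm
    refine sum_congr rfl fun a _ => sum_congr rfl fun b _ => ind_congr ?_
    exact dvd_dl_iff hp h5 τ a b
  rw [h2]
  have h3 : sm G p = ∑ x ∈ range p, ∑ y ∈ range p,
      (ind ((p : ℤ) ∣ (x : ℤ) ^ 3 - (y : ℤ) ^ 2 ∧ ¬ (p : ℤ) ∣ (x : ℤ)) +
        ind ((p : ℤ) ∣ (x : ℤ)) * ind ((p : ℤ) ∣ (y : ℤ))) := by
    unfold sm
    refine sum_congr rfl fun x _ => sum_congr rfl fun y _ => ?_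
    rw [hG]
    simp only
    by_cases hx : (p : ℤ) ∣ (x : ℤ)
    · rw [ind_true hx, ind_false (p := (p : ℤ) ∣ (x : ℤ) ^ 3 - (y : ℤ) ^ 2 ∧ ¬ (p : ℤ) ∣ (x : ℤ))
        (fun h => h.2 hx), zero_add, one_mul]
      refine ind_congr ?_
      rw [dvd_sub_right (dvd_pow hx (by norm_num))]
      exact ⟨fun h => hpp.dvd_of_dvd_pow h, fun h => dvd_pow h two_ne_zero⟩
    · rw [ind_false hx, zero_mul, add_zero]
      exact ind_congr ⟨fun h => ⟨h, hx⟩, fun h => h.1⟩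
  rw [h3]
  simp only [sum_add_distrib, ← mul_sum, ← sum_mul]
  rw [cusp_sum hp, sum_dvd p hp]
  ring

/-- the normalised `(a₁, a₂, a₃)` -/
def TT : Finset (ℤ × ℤ × ℤ) := {0, 1} ×ˢ ({-1, 0, 1} ×ˢ {0, 1})

/-- computable versions -/
def nz (τ : ℤ × ℤ × ℤ) (p : ℕ) : ℕ := ∑ a ∈ range p, ∑ b ∈ range p,
  if (p : ℤ) ∣ dl τ a b ∧ ¬ (p : ℤ) ∣ xx τ a then 1 else 0

/-- computable versions -/
def sz (τ : ℤ × ℤ × ℤ) (p : ℕ) : ℕ := ∑ a ∈ range p, ∑ b ∈ range p,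
  if (p : ℤ) ∣ dl τ a b then 1 else 0

theorem nn_nz (τ : ℤ × ℤ × ℤ) (p : ℕ) : nn τ p = (nz τ p : ℝ) := by
  unfold nn nz sm
  push_cast
  refine sum_congr rfl fun a _ => sum_congr rfl fun b _ => ?_
  unfold Ej
  rw [pow_one]
  by_cases h : (p : ℤ) ∣ dl τ a b ∧ ¬ (p : ℤ) ∣ xx τ a
  · rw [ind_true h, if_pos h]
  · rw [ind_false h, if_neg h]

theorem ss_sz (τ : ℤ × ℤ × ℤ) (p : ℕ) : ss τ p = (sz τ p : ℝ) := by
  unfold ss sz sm
  push_cast
  refine sum_congr rfl fun a _ => sum_congr rfl fun b _ => ?_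
  by_cases h : (p : ℤ) ∣ dl τ a b
  · rw [ind_true h, if_pos h]
  · rw [ind_false h, if_neg h]

/-- the local density -/
noncomputable def rho (p e : ℕ) : ℝ :=
  if e = 0 then 1 - 1 / (p : ℝ) + ((p : ℝ) - 1) ^ 2 / (p : ℝ) ^ 3
  else ((p : ℝ) - 1) ^ 2 / (p : ℝ) ^ (e + 3)

theorem lc_rho {p : ℕ} (hp : p.Prime) (e : ℕ) : lc p e ((p : ℝ) - 1) p = rho p e := by
  have hp0 : (p : ℝ) ≠ 0 := by exact_mod_cast hp.ne_zero
  unfold lc rho
  split_ifs
  · field_simp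
    ring
  · rw [div_sub_div _ _ (pow_ne_zero _ hp0) (pow_ne_zero _ hp0), div_eq_div_iff
      (mul_ne_zero (pow_ne_zero _ hp0) (pow_ne_zero _ hp0)) (pow_ne_zero _ hp0)]
    ring

theorem tab2 : ∀ τ ∈ TT, (τ.1 = 1 ∧ nz τ 2 = 2 ∧ sz τ 2 = 2) ∨
    (τ.1 = 0 ∧ τ.2.2 = 1 ∧ nz τ 2 = 0 ∧ sz τ 2 = 0) ∨
    (τ.1 = 0 ∧ τ.2.2 = 0 ∧ nz τ 2 = 0 ∧ sz τ 2 = 4) := by
  decide

theorem tab3 : ∀ τ ∈ TT, sz τ 3 = 3 ∧ nz τ 3 = if (3 : ℤ) ∣ τ.1 + τ.2.1 then 0 else 3 := by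
  decide

theorem sum_TT (e₂ e₃ : ℕ) : ∑ τ ∈ TT, lc 2 e₂ (nn τ 2) (ss τ 2) * lc 3 e₃ (nn τ 3) (ss τ 3) =
    12 * (rho 2 e₂ * rho 3 e₃) := by
  have h1 : ∑ τ ∈ TT, lc 2 e₂ (nn τ 2) (ss τ 2) * lc 3 e₃ (nn τ 3) (ss τ 3) =
      ∑ τ ∈ TT, lc 2 e₂ (if τ.1 = 1 then 2 else 0) (if τ.1 = 1 then 2 else if τ.2.2 = 1 then 0 else 4) *
        lc 3 e₃ (if (3 : ℤ) ∣ τ.1 + τ.2.1 then 0 else 3) 3 := by
    refine sum_congr rfl fun τ hτ => ?_
    obtain ⟨k1, k2⟩ := tab3 τ hτ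
    rw [nn_nz, nn_nz, ss_sz, ss_sz, k1, k2]
    rcases tab2 τ hτ with ⟨k3, k4, k5⟩ | ⟨k3, k3', k4, k5⟩ | ⟨k3, k3', k4, k5⟩
    · rw [k3, k4, k5]
      push_cast
      rfl
    · rw [k3, k3', k4, k5]
      simp
    · rw [k3, k3', k4, k5]
      simp
  have h2 : TT = {(0, -1, 0), (0, -1, 1), (0, 0, 0), (0, 0, 1), (0, 1, 0), (0, 1, 1),
      (1, -1, 0), (1, -1, 1), (1, 0, 0), (1, 0, 1), (1, 1, 0), (1, 1, 1)} := by decide
  have d1 : ¬ (3 : ℤ) ∣ -1 := by decide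
  have d2 : ¬ (3 : ℤ) ∣ 1 := by decide
  have d3 : ¬ (3 : ℤ) ∣ 2 := by decide
  rw [h1, h2]
  rw [sum_insert (by decide), sum_insert (by decide), sum_insert (by decide), sum_insert (by decide),
    sum_insert (by decide), sum_insert (by decide), sum_insert (by decide), sum_insert (by decide),
    sum_insert (by decide), sum_insert (by decide), sum_insert (by decide), sum_singleton]
  unfold lc rho
  by_cases g2 : e₂ = 0
  · by_cases g3 : e₃ = 0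
    · norm_num [g2, g3, d1, d2, d3]
    · simp only [g2, g3, if_true, if_false]
      norm_num [d1, d2, d3]
      ring
  · by_cases g3 : e₃ = 0
    · simp only [g2, g3, if_true, if_false]
      norm_num [d1, d2, d3]
      ring
    · simp only [g2, g3, if_false]
      norm_num [d1, d2, d3]
      ring

end Pool.Agent.L0h45.EP
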