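import Mathlib
import Pool.Agent.L0h45.EP.Rho
import Pool.Agent.L0h45.DH.Law2

/-!
# The density of the semistable curves with a given index
-/

set_option autoImplicit false

namespace Pool.Agent.L0h45.EP

open Finset
open Pool.Agent.L0h45.DH

theorem dens_eq (P : ℤ → ℤ → Prop) (Q : ℕ) :
    Pool.Agent.L0h45.DH.dens P Q = mn (fun x y => ind (P x y)) Q := by
  classical
  unfold Pool.Agent.L0h45.DH.dens mn sm
  congr 1
  refine sum_congr rfl fun x _ => ?_
  unfold rr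
  have h1 : ∀ F : Finset ℤ, (∀ y, y ∈ F ↔ (y ∈ Ico (0 : ℤ) Q ∧ P x y)) →
      (F.card : ℝ) = ∑ j ∈ range Q, ind (P x (j : ℤ)) := by
    intro F hF
    have h2 : F = ((range Q).filter (fun j : ℕ => P x (j : ℤ))).image (fun j : ℕ => (j : ℤ)) := by
      ext y
      rw [hF, mem_image, mem_Ico]
      constructor
      · rintro ⟨⟨h3, h4⟩, h5⟩
        refine ⟨y.toNat, mem_filter.2 ⟨mem_range.2 (by omega), ?_⟩, by omega⟩
        rw [Int.toNat_of_nonneg h3]
        exact h5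
      · rintro ⟨j, hj, rfl⟩
        obtain ⟨h3, h4⟩ := mem_filter.1 hj
        rw [mem_range] at h3
        exact ⟨⟨by omega, by omega⟩, h4⟩
    rw [h2, card_image_of_injective _ (fun a b h => by simpa using h), card_filter]
    push_cast
    refine sum_congr rfl fun j _ => ?_
    by_cases h : P x (j : ℤ)
    · rw [ind_true h, if_pos h]
    · rw [ind_false h, if_neg h]
  exact h1 _ (fun y => mem_filter)

theorem xx_def (τ : ℤ × ℤ × ℤ) (a : ℤ) :
    xx τ a = (τ.1 ^ 2 + 4 * τ.2.1) ^ 2 - 24 * (2 * a + τ.1 * τ.2.2) := by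
  simp only [xx, cv, WeierstrassCurve.c₄, WeierstrassCurve.b₂, WeierstrassCurve.b₄]

theorem yy_def (τ : ℤ × ℤ × ℤ) (a b : ℤ) :
    yy τ a b = -(τ.1 ^ 2 + 4 * τ.2.1) ^ 3 + 36 * (τ.1 ^ 2 + 4 * τ.2.1) * (2 * a + τ.1 * τ.2.2) -
      216 * (τ.2.2 ^ 2 + 4 * b) := by
  simp only [yy, cv, WeierstrassCurve.c₆, WeierstrassCurve.b₂, WeierstrassCurve.b₄,
    WeierstrassCurve.b₆]

theorem mem_TT {τ : ℤ × ℤ × ℤ} : τ ∈ TT ↔
    (τ.1 = 0 ∨ τ.1 = 1) ∧ (τ.2.1 = -1 ∨ τ.2.1 = 0 ∨ τ.2.1 = 1) ∧ (τ.2.2 = 0 ∨ τ.2.2 = 1) := by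
  unfold TT
  simp only [mem_product, mem_insert, mem_singleton]

/-- the normalised equation is unique -/
theorem uniq {τ τ' : ℤ × ℤ × ℤ} (hτ : τ ∈ TT) (hτ' : τ' ∈ TT) {a a' b b' : ℤ}
    (h1 : xx τ a = xx τ' a') (h2 : yy τ a b = yy τ' a' b') : τ = τ' ∧ a = a' ∧ b = b' := by
  obtain ⟨t1, t2, t3⟩ := τ
  obtain ⟨u1, u2, u3⟩ := τ'
  rw [mem_TT] at hτ hτ'
  simp only at hτ hτ'
  rw [xx_def, xx_def] at h1
  rw [yy_def, yy_def] at h2
  simp only at h1 h2
  obtain ⟨r1, r2, r3⟩ := hτ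
  obtain ⟨v1, v2, v3⟩ := hτ'
  rcases r1 with rfl | rfl <;> rcases v1 with rfl | rfl <;> rcases r2 with rfl | rfl | rfl <;>
    rcases v2 with rfl | rfl | rfl <;> rcases r3 with rfl | rfl <;> rcases v3 with rfl | rfl <;>
    norm_num at h1 h2 ⊢ <;> omega

/-- the pairs of invariants -/
theorem Wz_iff (x y : ℤ) : Wz x y ↔ ∃ τ ∈ TT, ∃ a b, xx τ a = x ∧ yy τ a b = y := by
  constructor
  · rintro ⟨W, rfl, rfl⟩
    set s : ℤ := -(W.a₁ / 2) with hs
    set r : ℤ := -((W.a₂ - s * W.a₁ - s ^ 2 + 1) / 3) with hr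
    set t : ℤ := -((W.a₃ + r * W.a₁) / 2) with ht
    refine ⟨(W.a₁ + 2 * s, W.a₂ - s * W.a₁ + 3 * r - s ^ 2, W.a₃ + r * W.a₁ + 2 * t), ?_,
      W.a₄ - s * W.a₃ + 2 * r * W.a₂ - (t + r * s) * W.a₁ + 3 * r ^ 2 - 2 * s * t,
      W.a₆ + r * W.a₄ + r ^ 2 * W.a₂ + r ^ 3 - t * W.a₃ - t ^ 2 - r * t * W.a₁, ?_, ?_⟩
    · rw [mem_TT]
      simp only
      generalize s * W.a₁ = sa at *
      generalize s ^ 2 = s2 at *
      generalize r * W.a₁ = ra at *
      refine ⟨?_, ?_, ?_⟩ <;> omega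
    · rw [xx_def]
      simp only [WeierstrassCurve.c₄, WeierstrassCurve.b₂, WeierstrassCurve.b₄]
      ring
    · rw [yy_def]
      simp only [WeierstrassCurve.c₆, WeierstrassCurve.b₂, WeierstrassCurve.b₄,
        WeierstrassCurve.b₆]
      ring
  · rintro ⟨τ, -, a, b, rfl, rfl⟩
    exact ⟨cv τ a b, xx_eq a b, rfl⟩

theorem Cp_iff (τ : ℤ × ℤ × ℤ) (m p : ℕ) (a b : ℤ) : Cp m p (xx τ a) (yy τ a b) ↔ Lp τ m p a b := by
  unfold Cp Lp
  have h : ∀ t : ℤ, 1728 * t ∣ xx τ a ^ 3 - yy τ a b ^ 2 ↔ t ∣ dl τ a b := by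
    intro t
    rw [rel]
    exact mul_dvd_mul_iff_left (by norm_num)
  rw [h, h, h, h]

/-- the conditions at all primes up to `M` -/
def Cc (τ : ℤ × ℤ × ℤ) (m M : ℕ) (a b : ℤ) : Prop :=
  ∀ p ∈ (range (M + 1)).filter Nat.Prime, Lp τ m p a b

/-- the pairs from given `(a₁, a₂, a₃)` -/
def At (τ : ℤ × ℤ × ℤ) (m M : ℕ) (x y : ℤ) : Prop :=
  ∃ a b, xx τ a = x ∧ yy τ a b = y ∧ Cc τ m M a b

theorem At_iff (τ : ℤ × ℤ × ℤ) (m M : ℕ) (a b : ℤ) (hτ : τ ∈ TT) :
    At τ m M (xx τ a) (yy τ a b) ↔ Cc τ m M a b := by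
  constructor
  · rintro ⟨a', b', h1, h2, h3⟩
    obtain ⟨-, rfl, rfl⟩ := uniq hτ hτ h1 h2
    exact h3
  · intro h
    exact ⟨a, b, rfl, rfl, h⟩

theorem ind_Am (m M : ℕ) (x y : ℤ) : ind (Am m M x y) = ∑ τ ∈ TT, ind (At τ m M x y) := by
  have hkey : Am m M x y ↔ ∃ τ ∈ TT, At τ m M x y := by
    unfold Am
    rw [Wz_iff]
    constructor
    · rintro ⟨⟨τ, hτ, a, b, rfl, rfl⟩, h⟩
      refine ⟨τ, hτ, a, b, rfl, rfl, fun p hp => ?_⟩
      rw [mem_filter, mem_range] at hp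
      exact (Cp_iff τ m p a b).1 (h p hp.2 (by omega))
    · rintro ⟨τ, hτ, a, b, rfl, rfl, h⟩
      refine ⟨⟨τ, hτ, a, b, rfl, rfl⟩, fun p hp hM => (Cp_iff τ m p a b).2 (h p ?_)⟩
      rw [mem_filter, mem_range]
      exact ⟨by omega, hp⟩
  by_cases h : ∃ τ ∈ TT, At τ m M x y
  · obtain ⟨τ, hτ, hA⟩ := h
    rw [ind_true (hkey.2 ⟨τ, hτ, hA⟩), sum_eq_single τ]
    · rw [ind_true hA]
    · intro τ' hτ' hne
      refine ind_false ?_
      rintro ⟨a', b', h1, h2, -⟩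
      obtain ⟨a, b, h3, h4, -⟩ := hA
      exact hne (uniq hτ' hτ (h1.trans h3.symm) (h2.trans h4.symm)).1
    · intro h'
      exact absurd hτ h'
  · rw [ind_false (fun h' => h (hkey.1 h')), sum_eq_zero]
    intro τ hτ
    exact ind_false fun h' => h ⟨τ, hτ, h'⟩

theorem Cc_per (τ : ℤ × ℤ × ℤ) (m M : ℕ) (a b : ℤ) {h : ℤ}
    (hh : ∀ p : ℕ, p.Prime → p ≤ M → (p : ℤ) ^ (m + 2) ∣ h) :
    (Cc τ m M (a + h) b ↔ Cc τ m M a b) ∧ (Cc τ m M a (b + h) ↔ Cc τ m M a b) := by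
  have key : ∀ p ∈ (range (M + 1)).filter Nat.Prime,
      (Lp τ m p (a + h) b ↔ Lp τ m p a b) ∧ (Lp τ m p a (b + h) ↔ Lp τ m p a b) := by
    intro p hp
    rw [mem_filter, mem_range] at hp
    have h0 := hh p hp.2 (by omega)
    have hi : ∀ i : ℕ, i ≤ m + 2 → (p : ℤ) ^ i ∣ h := fun i hi => (pow_dvd_pow _ hi).trans h0
    have h1 : (p : ℤ) ∣ h := by
      have := hi 1 (by omega)
      rwa [pow_one] at this
    have hf := fac_le m p
    unfold Lp
    rw [dvd_xx h1, dvd_dl_l h1, dvd_dl_l (hi 2 (by omega)), dvd_dl_l (hi _ (by omega)),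
      dvd_dl_l (hi (m.factorization p + 2) (by omega)), dvd_dl_r h1, dvd_dl_r (hi 2 (by omega)),
      dvd_dl_r (hi _ (by omega)), dvd_dl_r (hi (m.factorization p + 2) (by omega))]
    exact ⟨Iff.rfl, Iff.rfl⟩
  unfold Cc
  exact ⟨⟨fun h p hp => (key p hp).1.1 (h p hp), fun h p hp => (key p hp).1.2 (h p hp)⟩,
    ⟨fun h p hp => (key p hp).2.1 (h p hp), fun h p hp => (key p hp).2.2 (h p hp)⟩⟩

theorem yy_add_a (τ : ℤ × ℤ × ℤ) (a h b : ℤ) :
    yy τ (a + 12 * h) (b + (τ.1 ^ 2 + 4 * τ.2.1) * h) = yy τ a b := by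
  rw [yy_def, yy_def]
  ring

/-- the sum over the pairs from given `(a₁, a₂, a₃)` -/
theorem sm_At {τ : ℤ × ℤ × ℤ} (hτ : τ ∈ TT) (m M R : ℕ)
    (hR : ∀ p : ℕ, p.Prime → p ≤ M → (p : ℤ) ^ (m + 2) ∣ (R : ℤ)) :
    sm (fun x y => ind (At τ m M x y)) (1728 * R) = 72 * sm (fun a b => ind (Cc τ m M a b)) R := by
  have hRm : ∀ k : ℤ, ∀ p : ℕ, p.Prime → p ≤ M → (p : ℤ) ^ (m + 2) ∣ R * k := fun k p hp hM =>
    (hR p hp hM).mul_right k
  -- periodicity
  have perx : ∀ x y, At τ m M (x + ((1728 * R : ℕ) : ℤ)) y ↔ At τ m M x y := by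
    intro x y
    constructor
    · rintro ⟨a, b, h1, h2, h3⟩
      refine ⟨a + R * 36, b + (τ.1 ^ 2 + 4 * τ.2.1) * (R * 3), ?_, ?_, ?_⟩
      · rw [xx_add, h1]
        push_cast
        ring
      · rw [← h2, ← yy_add_a τ a (R * 3) b]
        congr 1
        ring
      · have e1 : (τ.1 ^ 2 + 4 * τ.2.1) * ((R : ℤ) * 3) = R * ((τ.1 ^ 2 + 4 * τ.2.1) * 3) := by ring
        rw [e1, (Cc_per τ m M _ _ (hRm _)).2, (Cc_per τ m M _ _ (hRm _)).1]
        exact h3
    · rintro ⟨a, b, h1, h2, h3⟩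
      refine ⟨a + R * (-36), b + (τ.1 ^ 2 + 4 * τ.2.1) * (R * (-3)), ?_, ?_, ?_⟩
      · rw [xx_add, h1]
        push_cast
        ring
      · rw [← h2, ← yy_add_a τ a (R * (-3)) b]
        congr 1
        ring
      · have e1 : (τ.1 ^ 2 + 4 * τ.2.1) * ((R : ℤ) * (-3)) = R * ((τ.1 ^ 2 + 4 * τ.2.1) * (-3)) := by
          ring
        rw [e1, (Cc_per τ m M _ _ (hRm _)).2, (Cc_per τ m M _ _ (hRm _)).1]
        exact h3
  have pery : ∀ x y, At τ m M x (y + ((1728 * R : ℕ) : ℤ)) ↔ At τ m M x y := by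
    intro x y
    constructor
    · rintro ⟨a, b, h1, h2, h3⟩
      refine ⟨a, b + R * 2, h1, ?_, ?_⟩
      · rw [yy_add, h2]
        push_cast
        ring
      · rw [(Cc_per τ m M _ _ (hRm _)).2]
        exact h3
    · rintro ⟨a, b, h1, h2, h3⟩
      refine ⟨a, b + R * (-2), h1, ?_, ?_⟩
      · rw [yy_add, h2]
        push_cast
        ring
      · rw [(Cc_per τ m M _ _ (hRm _)).2]
        exact h3
  have hCx : ∀ a b, ind (Cc τ m M (a + R) b) = ind (Cc τ m M a b) := fun a b =>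
    ind_congr (Cc_per τ m M a b hR).1
  have hCy : ∀ a b, ind (Cc τ m M a (b + R)) = ind (Cc τ m M a b) := fun a b =>
    ind_congr (Cc_per τ m M a b hR).2
  have hneg : ∀ (f : ℤ → ℝ), (∀ x, f (x + R) = f x) → ∀ k : ℕ,
      ∑ i ∈ range (k * R), f (-(i : ℤ)) = k * ∑ i ∈ range R, f (i : ℤ) := by
    intro f hf k
    have h1 := sum_mul' (f := fun x => f (-x)) (n := R) (fun x => by
      have := hf (-(x + R))
      rw [← this]
      congr 1
      ring) 0 k
    simp only [zero_add] at h1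
    rw [h1]
    congr 1
    rcases Nat.eq_zero_or_pos R with h0 | h0
    · rw [h0]
      simp
    · have h2 := sum_affine_int (g := f) (A := -1) h0 isCoprime_one_right.neg_right hf 0
      rw [← h2]
      refine sum_congr rfl fun i _ => ?_
      congr 1
      ring
  -- the inner sum
  have inner : ∀ a : ℤ, ∑ y ∈ range (1728 * R), ind (At τ m M (xx τ a) (y : ℤ)) =
      2 * ∑ b ∈ range R, ind (Cc τ m M a (b : ℤ)) := by
    intro a
    rw [← sum_shift (f := fun y => ind (At τ m M (xx τ a) y)) (n := 1728 * R)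
      (fun y => ind_congr (pery _ y)) (yy τ a 0)]
    have e1 : 1728 * R = 864 * (2 * R) := by ring
    rw [e1, sum_blocks (fun i : ℕ => ind (At τ m M (xx τ a) (yy τ a 0 + i))) 864 (2 * R)]
    have e2 : ∀ k ∈ range (2 * R), ∑ j ∈ range 864,
        ind (At τ m M (xx τ a) (yy τ a 0 + ((864 * k + j : ℕ) : ℤ))) =
        ind (Cc τ m M a (-(k : ℤ))) := by
      intro k _
      rw [sum_eq_single 0]
      · have h1 := yy_add (τ := τ) a 0 (-(k : ℤ))
        rw [zero_add] at h1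
        have h2 : yy τ a 0 + ((864 * k + 0 : ℕ) : ℤ) = yy τ a (-(k : ℤ)) := by
          rw [h1]
          push_cast
          ring
        rw [h2]
        exact ind_congr (At_iff τ m M a _ hτ)
      · intro j hj hj0
        refine ind_false ?_
        rintro ⟨a', b', h1, h2, -⟩
        rw [mem_range] at hj
        have ha : a' = a := by
          rw [xx_def, xx_def] at h1
          linarith
        subst ha
        have h3 := yy_add (τ := τ) a' 0 b'
        rw [zero_add] at h3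
        rw [h3] at h2
        push_cast at h2
        omega
      · intro h
        exact absurd (mem_range.2 (by norm_num)) h
    rw [sum_congr rfl e2]
    have h3 := hneg (fun b => ind (Cc τ m M a b)) (hCy a) 2
    push_cast at h3
    exact h3
  unfold sm
  rw [← sum_shift (f := fun x => ∑ y ∈ range (1728 * R), ind (At τ m M x (y : ℤ))) (n := 1728 * R)
    (fun x => sum_congr rfl fun y _ => ind_congr (perx x _)) (xx τ 0)]
  have e1 : 1728 * R = 48 * (36 * R) := by ring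
  have e3 : ∑ i ∈ range (1728 * R), ∑ y ∈ range (1728 * R), ind (At τ m M (xx τ 0 + i) (y : ℤ)) =
      ∑ i ∈ range (48 * (36 * R)), ∑ y ∈ range (1728 * R), ind (At τ m M (xx τ 0 + i) (y : ℤ)) := by
    rw [← e1]
  rw [e3, sum_blocks (fun i : ℕ => ∑ y ∈ range (1728 * R), ind (At τ m M (xx τ 0 + i) (y : ℤ)))
    48 (36 * R)]
  have e2 : ∀ k ∈ range (36 * R), ∑ j ∈ range 48, ∑ y ∈ range (1728 * R),
      ind (At τ m M (xx τ 0 + ((48 * k + j : ℕ) : ℤ)) (y : ℤ)) =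
      2 * ∑ b ∈ range R, ind (Cc τ m M (-(k : ℤ)) (b : ℤ)) := by
    intro k _
    rw [sum_eq_single 0]
    · have h1 := xx_add (τ := τ) 0 (-(k : ℤ))
      rw [zero_add] at h1
      have h2 : xx τ 0 + ((48 * k + 0 : ℕ) : ℤ) = xx τ (-(k : ℤ)) := by
        rw [h1]
        push_cast
        ring
      rw [h2]
      exact inner _
    · intro j hj hj0
      refine sum_eq_zero fun y _ => ind_false ?_
      rintro ⟨a', b', h1, h2, -⟩
      rw [mem_range] at hj
      have h3 := xx_add (τ := τ) 0 a'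
      rw [zero_add] at h3
      rw [h3] at h1
      push_cast at h1
      omega
    · intro h
      exact absurd (mem_range.2 (by norm_num)) h
  rw [sum_congr rfl e2, ← mul_sum]
  have h3 := hneg (fun a => ∑ b ∈ range R, ind (Cc τ m M a (b : ℤ)))
    (fun a => sum_congr rfl fun b _ => hCx a _) 36
  push_cast at h3
  rw [h3]
  ring

/-- **the density up to `M`** -/
theorem dens_Am {m M : ℕ} (hm : m ≠ 0) (hM : 3 ≤ M) :
    Pool.Agent.L0h45.DH.dens (Am m M) (QQ m M) =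
      1 / 3456 * ∏ p ∈ (range (M + 1)).filter Nat.Prime, rho p (m.factorization p) := by
  classical
  set S := (range (M + 1)).filter Nat.Prime with hS
  have hSp : ∀ p ∈ S, p.Prime := fun p hp => (mem_filter.1 hp).2
  set R : ℕ := M.factorial ^ (m + 2) with hRdef
  have hR0 : 0 < R := pow_pos M.factorial_pos _
  have hR : ∀ p : ℕ, p.Prime → p ≤ M → (p : ℤ) ^ (m + 2) ∣ (R : ℤ) := by
    intro p hp hpM
    have h1 : p ^ (m + 2) ∣ R := pow_dvd_pow_of_dvd (Nat.dvd_factorial hp.pos hpM) _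
    exact_mod_cast h1
  have hprod : (∏ p ∈ S, p ^ (m + 2)) ∣ R := by
    rw [prod_pow]
    refine pow_dvd_pow_of_dvd ?_ _
    refine prod_primes_dvd _ (fun p hp => (hSp p hp).prime) fun p hp => ?_
    rw [hS, mem_filter, mem_range] at hp
    exact Nat.dvd_factorial hp.2.pos (by omega)
  -- the mean for one `τ`
  have hτ : ∀ τ ∈ TT, sm (fun a b => ind (Cc τ m M a b)) R =
      (R : ℝ) ^ 2 * ∏ p ∈ S, lc p (m.factorization p) (nn τ p) (ss τ p) := by
    intro τ _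
    have hLp : ∀ p ∈ S, Per (fun a b => ind (Lp τ m p a b)) (p ^ (m + 2)) := fun p hp =>
      Lp_per _ (by have := fac_le m p; omega)
    obtain ⟨g1, g2⟩ := mn_prod (m + 2) (fun p a b => ind (Lp τ m p a b)) S hSp hLp
    have h1 : (fun a b => ind (Cc τ m M a b)) = fun a b => ∏ p ∈ S, ind (Lp τ m p a b) := by
      funext a b
      exact ind_forall S _
    obtain ⟨k, hk⟩ := hprod
    have hk0 : 0 < k := by
      rcases Nat.eq_zero_or_pos k with h | h
      · rw [h, mul_zero] at hk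
        omega
      · exact h
    have h2 : mn (fun a b => ind (Cc τ m M a b)) R =
        ∏ p ∈ S, lc p (m.factorization p) (nn τ p) (ss τ p) := by
      rw [h1, hk, mul_comm, mn_mul g1 hk0, g2]
      refine prod_congr rfl fun p hp => ?_
      exact mn_Lp hm (hSp p hp) _ (by have := fac_le m p; omega)
    rw [← h2]
    unfold mn
    have hRr : (R : ℝ) ≠ 0 := by exact_mod_cast hR0.ne'
    field_simp
  have h1 : sm (fun x y => ind (Am m M x y)) (QQ m M) =
      ∑ τ ∈ TT, 72 * ((R : ℝ) ^ 2 * ∏ p ∈ S, lc p (m.factorization p) (nn τ p) (ss τ p)) := by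
    have e1 : sm (fun x y => ind (Am m M x y)) (QQ m M) =
        ∑ τ ∈ TT, sm (fun x y => ind (At τ m M x y)) (QQ m M) := by
      unfold sm
      simp only [ind_Am]
      rw [sum_comm]
      rw [sum_congr rfl fun x _ => sum_comm]
      rw [sum_comm]
      refine sum_congr rfl fun τ _ => ?_
      rw [sum_comm]
    rw [e1]
    refine sum_congr rfl fun τ h => ?_
    have := sm_At h m M R hR
    rw [← hτ τ h, ← this]
    rfl
  -- splitting off `2` and `3`
  have h2S : 2 ∈ S := by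
    rw [hS, mem_filter, mem_range]
    exact ⟨by omega, Nat.prime_two⟩
  have h3S : 3 ∈ S.erase 2 := by
    rw [mem_erase, hS, mem_filter, mem_range]
    exact ⟨by norm_num, by omega, Nat.prime_three⟩
  have hspl : ∀ f : ℕ → ℝ, ∏ p ∈ S, f p = f 2 * f 3 * ∏ p ∈ (S.erase 2).erase 3, f p := by
    intro f
    rw [← mul_prod_erase S f h2S, ← mul_prod_erase (S.erase 2) f h3S]
    ring
  have hge : ∀ p ∈ (S.erase 2).erase 3, 5 ≤ p := by
    intro p hp
    rw [mem_erase, mem_erase] at hp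
    obtain ⟨h3, h2, hpS⟩ := hp
    have hpp := hSp p hpS
    have := hpp.two_le
    by_contra h
    have h4 : p = 4 := by omega
    rw [h4] at hpp
    exact absurd hpp (by norm_num)
  have hrest : ∀ τ : ℤ × ℤ × ℤ, ∏ p ∈ (S.erase 2).erase 3,
      lc p (m.factorization p) (nn τ p) (ss τ p) =
      ∏ p ∈ (S.erase 2).erase 3, rho p (m.factorization p) := by
    intro τ
    refine prod_congr rfl fun p hp => ?_
    have hpp : p.Prime := hSp p (mem_of_mem_erase (mem_of_mem_erase hp))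
    rw [nn_eq hpp (hge p hp), ss_eq hpp (hge p hp), lc_rho hpp]
  rw [dens_eq]
  unfold mn
  rw [h1]
  have h2 : ∑ τ ∈ TT, 72 * ((R : ℝ) ^ 2 * ∏ p ∈ S, lc p (m.factorization p) (nn τ p) (ss τ p)) =
      72 * (R : ℝ) ^ 2 * (∏ p ∈ (S.erase 2).erase 3, rho p (m.factorization p)) *
      ∑ τ ∈ TT, lc 2 (m.factorization 2) (nn τ 2) (ss τ 2) *
        lc 3 (m.factorization 3) (nn τ 3) (ss τ 3) := by
    rw [mul_sum]
    refine sum_congr rfl fun τ _ => ?_
    rw [hspl, hrest]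
    ring
  rw [h2, sum_TT, hspl (fun p => rho p (m.factorization p))]
  have hRr : (R : ℝ) ≠ 0 := by exact_mod_cast hR0.ne'
  have hQ : ((QQ m M : ℕ) : ℝ) = 1728 * R := by
    unfold QQ
    rw [← hRdef]
    push_cast
    ring
  rw [hQ]
  field_simp
  ring

/-- **the Euler product** -/
theorem dlt_tendsto (m : ℕ) (hm : 1 ≤ m) :
    Filter.Tendsto (fun M : ℕ => 1 / 3456 * ∏ p ∈ (range (M + 1)).filter Nat.Prime,
      rho p (m.factorization p)) Filter.atTop (nhds (dlt m)) := by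
  refine (dlt_dens m hm).congr' ?_
  filter_upwards [Filter.eventually_ge_atTop 3] with M hM
  exact dens_Am (by omega) hM

end Pool.Agent.L0h45.EP
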