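import Mathlib
import Pool.Agent.L0h45.EP.Glo
import Pool.Agent.L0h45.DH.Law4

/-!
# The Euler products
-/

set_option autoImplicit false

namespace Pool.Agent.L0h45.EP

open Finset Filter Topology
open Pool.Agent.L0h45.DH

/-- products over the primes and partial products -/
theorem tendsto_of_hasProd {f : ℕ → ℝ} {a : ℝ} (h : HasProd (fun p : Nat.Primes => f p) a) :
    Tendsto (fun n : ℕ => ∏ p ∈ (range (n + 1)).filter Nat.Prime, f p) atTop (𝓝 a) := by
  have h1 : HasProd (Set.mulIndicator {p | Nat.Prime p} f) a := by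
    rw [← hasProd_subtype_iff_mulIndicator]
    exact h
  have h2 := (tendsto_add_atTop_iff_nat 1).2 h1.tendsto_prod_nat
  have H (n : ℕ) : ∏ i ∈ range n, Set.mulIndicator {p | Nat.Prime p} f i =
      ∏ p ∈ (range n).filter Nat.Prime, f p :=
    prod_mulIndicator_eq_prod_filter (range n) (fun _ ↦ f) (fun _ ↦ {p | Nat.Prime p}) id
  simpa only [H] using h2

theorem rho_pos {p : ℕ} (hp : p.Prime) (e : ℕ) : 0 < rho p e := by
  have h2 : (2 : ℝ) ≤ p := by exact_mod_cast hp.two_le
  have hp0 : (0 : ℝ) < p := by linarith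
  unfold rho
  split_ifs
  · have h1 : 1 / (p : ℝ) ≤ 1 / 2 := by
      apply one_div_le_one_div_of_le <;> linarith
    have h3 : 0 ≤ ((p : ℝ) - 1) ^ 2 / (p : ℝ) ^ 3 := by positivity
    linarith
  · have : 0 < (p : ℝ) - 1 := by linarith
    positivity

theorem summable_primes_two : Summable (fun p : Nat.Primes => 1 / ((p : ℕ) : ℝ) ^ 2) := by
  have h : Summable (fun n : ℕ => 1 / (n : ℝ) ^ 2) := Real.summable_one_div_nat_pow.2 (by norm_num)
  exact h.comp_injective Subtype.val_injective

theorem multipliable_rho (m : ℕ) :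
    Multipliable (fun p : Nat.Primes => rho p (m.factorization p)) := by
  have h1 : ∀ p : Nat.Primes, rho p (m.factorization p) = 1 + (rho p (m.factorization p) - 1) := by
    intro p
    ring
  rw [show (fun p : Nat.Primes => rho p (m.factorization p)) =
    fun p : Nat.Primes => 1 + (rho p (m.factorization p) - 1) from funext h1]
  refine Real.multipliable_one_add_of_summable ?_
  -- the difference with `m = 1` has finite support
  have h2 : Summable (fun p : Nat.Primes => rho p 0 - 1) := by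
    refine Summable.of_norm_bounded (summable_primes_two.mul_left 2) fun p => ?_
    have hp2 : (2 : ℝ) ≤ ((p : ℕ) : ℝ) := by exact_mod_cast p.2.two_le
    have hp0 : (0 : ℝ) < ((p : ℕ) : ℝ) := by linarith
    unfold rho
    rw [if_pos rfl, Real.norm_eq_abs]
    have e1 : 1 - 1 / ((p : ℕ) : ℝ) + (((p : ℕ) : ℝ) - 1) ^ 2 / ((p : ℕ) : ℝ) ^ 3 - 1 =
        -((2 * ((p : ℕ) : ℝ) - 1) / ((p : ℕ) : ℝ) ^ 3) := by
      field_simp
      ring
    rw [e1, abs_neg, abs_of_nonneg (by apply div_nonneg <;> [linarith; positivity]),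
      mul_one_div, div_le_div_iff₀ (by positivity) (by positivity)]
    have : 0 < ((p : ℕ) : ℝ) ^ 2 := by positivity
    nlinarith
  have h3 : Summable (fun p : Nat.Primes => rho p (m.factorization p) - rho p 0) := by
    refine summable_of_finite_support ?_
    refine (m.primeFactors.finite_toSet.preimage Subtype.val_injective.injOn).subset fun p hp => ?_
    have hp' : rho p (m.factorization p) - rho p 0 ≠ 0 := hp
    rw [Set.mem_preimage, mem_coe, ← Nat.support_factorization, Finsupp.mem_support_iff]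
    intro h0
    apply hp'
    rw [h0, sub_self]
  refine (h2.add h3).congr fun p => ?_
  ring

/-- **the Euler product for the density of the curves with index `m`** -/
theorem dlt_eq (m : ℕ) (hm : 1 ≤ m) :
    dlt m = 1 / 3456 * ∏' p : Nat.Primes, rho p (m.factorization p) := by
  have h1 := tendsto_of_hasProd (f := fun p => rho p (m.factorization p)) (multipliable_rho m).hasProd
  exact tendsto_nhds_unique (dlt_tendsto m hm) (h1.const_mul _)

/-- the multiplicative function -/
noncomputable def gm (m : ℕ) : ℝ := ∏ p ∈ m.primeFactors, rho p (m.factorization p) / rho p 0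

theorem dlt_gm (m : ℕ) (hm : 1 ≤ m) : dlt m = gm m * dlt 1 := by
  have h1 := (dlt_tendsto 1 le_rfl).const_mul (gm m)
  refine tendsto_nhds_unique (dlt_tendsto m hm) (h1.congr' ?_)
  filter_upwards [eventually_ge_atTop m] with M hM
  have hsub : m.primeFactors ⊆ (range (M + 1)).filter Nat.Prime := by
    intro p hp
    have h2 := Nat.le_of_mem_primeFactors hp
    rw [mem_filter, mem_range]
    exact ⟨by omega, Nat.prime_of_mem_primeFactors hp⟩
  have h2 : gm m = ∏ p ∈ (range (M + 1)).filter Nat.Prime, rho p (m.factorization p) / rho p 0 := by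
    unfold gm
    refine prod_subset hsub fun p hp hpm => ?_
    have hpp : p.Prime := (mem_filter.1 hp).2
    have h3 : m.factorization p = 0 := by
      rw [← Finsupp.notMem_support_iff, Nat.support_factorization]
      exact hpm
    rw [h3]
    exact div_self (rho_pos hpp 0).ne'
  have h3 : ∀ p : ℕ, (1 : ℕ).factorization p = 0 := fun p => by simp
  simp only [h3]
  rw [h2]
  have h4 : ∏ p ∈ (range (M + 1)).filter Nat.Prime, rho p (m.factorization p) =
      (∏ p ∈ (range (M + 1)).filter Nat.Prime, rho p (m.factorization p) / rho p 0) *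
        ∏ p ∈ (range (M + 1)).filter Nat.Prime, rho p 0 := by
    rw [← prod_mul_distrib]
    refine prod_congr rfl fun p hp => ?_
    have hpp : p.Prime := (mem_filter.1 hp).2
    rw [div_mul_cancel₀ _ (rho_pos hpp 0).ne']
  rw [h4]
  ring

theorem gm_one : gm 1 = 1 := by
  unfold gm
  simp

theorem gm_mul {m n : ℕ} (h : m.Coprime n) : gm (m * n) = gm m * gm n := by
  unfold gm
  rw [h.primeFactors_mul, prod_union h.disjoint_primeFactors]
  congr 1
  · refine prod_congr rfl fun p hp => ?_
    rw [Nat.factorization_mul_apply_of_coprime h]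
    have : n.factorization p = 0 := by
      rw [← Finsupp.notMem_support_iff, Nat.support_factorization]
      exact fun h' => (Finset.disjoint_left.1 h.disjoint_primeFactors) hp h'
    rw [this, add_zero]
  · refine prod_congr rfl fun p hp => ?_
    rw [Nat.factorization_mul_apply_of_coprime h]
    have : m.factorization p = 0 := by
      rw [← Finsupp.notMem_support_iff, Nat.support_factorization]
      exact fun h' => (Finset.disjoint_left.1 h.disjoint_primeFactors) h' hp
    rw [this, zero_add]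

theorem gm_pow {p : ℕ} (hp : p.Prime) (e : ℕ) : gm (p ^ e) = rho p e / rho p 0 := by
  rcases Nat.eq_zero_or_pos e with h | h
  · subst h
    rw [pow_zero, gm_one, div_self (rho_pos hp 0).ne']
  · unfold gm
    rw [Nat.primeFactors_prime_pow h.ne' hp, prod_singleton, hp.factorization_pow]
    simp

/-- the summand -/
noncomputable def fm (m : ℕ) : ℝ := gm m * (m : ℝ) ^ (5 / 6 : ℝ)

theorem kap_fm (m : ℕ) : kap m = dlt 1 * 1728 ^ (5 / 6 : ℝ) * VV 1 * fm m := by
  rcases Nat.eq_zero_or_pos m with h | h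
  · subst h
    rw [kap_zero]
    unfold fm
    rw [Nat.cast_zero, Real.zero_rpow (by norm_num)]
    ring
  · rw [kap_eq m h, dlt_gm m h, Real.mul_rpow (by norm_num) (Nat.cast_nonneg m)]
    unfold fm
    ring

/-- the Euler factor -/
noncomputable def Ef (p : ℕ) : ℝ :=
  1 - 1 / (p : ℝ) + ((p : ℝ) - 1) ^ 2 / ((p : ℝ) ^ 3 * (1 - (p : ℝ) ^ (-(1 / 6) : ℝ)))

theorem fm_sum {p : ℕ} (hp : p.Prime) : HasSum (fun e : ℕ => fm (p ^ e)) (Ef p / rho p 0) := by
  have h2 : (2 : ℝ) ≤ p := by exact_mod_cast hp.two_le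
  have hp0 : (0 : ℝ) < p := by linarith
  set r : ℝ := (p : ℝ) ^ (-(1 / 6) : ℝ) with hr
  have hr0 : 0 ≤ r := by positivity
  have hr1 : r < 1 := Real.rpow_lt_one_of_one_lt_of_neg (by linarith) (by norm_num)
  have hρ := (rho_pos hp 0).ne'
  have h3 : ∀ e : ℕ, fm (p ^ e) = (if e = 0 then (1 - 1 / (p : ℝ)) / rho p 0 else 0) +
      ((p : ℝ) - 1) ^ 2 / (p : ℝ) ^ 3 / rho p 0 * r ^ e := by
    intro e
    unfold fm
    rw [gm_pow hp]
    have e1 : ((p ^ e : ℕ) : ℝ) ^ (5 / 6 : ℝ) = (p : ℝ) ^ e * r ^ e := by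
      rw [hr, ← Real.rpow_natCast (p : ℝ) e, ← Real.rpow_natCast ((p : ℝ) ^ (-(1 / 6) : ℝ)) e,
        ← Real.rpow_mul hp0.le, ← Real.rpow_add hp0]
      push_cast
      rw [← Real.rpow_natCast (p : ℝ) e, ← Real.rpow_mul hp0.le]
      congr 1
      ring
    rw [e1]
    by_cases he : e = 0
    · subst he
      rw [if_pos rfl]
      have : rho p 0 = 1 - 1 / (p : ℝ) + ((p : ℝ) - 1) ^ 2 / (p : ℝ) ^ 3 := by
        unfold rho
        rw [if_pos rfl]
      rw [pow_zero, pow_zero, mul_one, mul_one, mul_one, ← add_div, ← this]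
    · rw [if_neg he, zero_add]
      have : rho p e = ((p : ℝ) - 1) ^ 2 / (p : ℝ) ^ (e + 3) := by
        unfold rho
        rw [if_neg he]
      rw [this, pow_add]
      field_simp
  have h4 : HasSum (fun e : ℕ => (if e = 0 then (1 - 1 / (p : ℝ)) / rho p 0 else 0))
      ((1 - 1 / (p : ℝ)) / rho p 0) := hasSum_ite_eq 0 _
  have h5 : HasSum (fun e : ℕ => ((p : ℝ) - 1) ^ 2 / (p : ℝ) ^ 3 / rho p 0 * r ^ e)
      (((p : ℝ) - 1) ^ 2 / (p : ℝ) ^ 3 / rho p 0 * (1 - r)⁻¹) :=
    (hasSum_geometric_of_lt_one hr0 hr1).mul_left _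
  have h6 := h4.add h5
  rw [show (fun e : ℕ => fm (p ^ e)) = fun e : ℕ =>
    (if e = 0 then (1 - 1 / (p : ℝ)) / rho p 0 else 0) +
      ((p : ℝ) - 1) ^ 2 / (p : ℝ) ^ 3 / rho p 0 * r ^ e from funext h3]
  have h7 : Ef p / rho p 0 = (1 - 1 / (p : ℝ)) / rho p 0 +
      ((p : ℝ) - 1) ^ 2 / (p : ℝ) ^ 3 / rho p 0 * (1 - r)⁻¹ := by
    unfold Ef
    rw [← hr]
    have h8 : (1 - r) ≠ 0 := by linarith
    field_simp
  rw [h7]
  exact h6

theorem kap_summable : Summable kap := (all_lim (5 / 4) (by norm_num) (by norm_num)).1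

theorem fm_summable : Summable fm := by
  have h1 : Summable (fun m => dlt 1 * 1728 ^ (5 / 6 : ℝ) * VV 1 * fm m) := by
    have := kap_summable
    rwa [show kap = fun m => dlt 1 * 1728 ^ (5 / 6 : ℝ) * VV 1 * fm m from funext kap_fm] at this
  have h2 : dlt 1 * 1728 ^ (5 / 6 : ℝ) * VV 1 ≠ 0 := by
    intro h0
    have h3 := kap_pos
    rw [show kap = fun m => dlt 1 * 1728 ^ (5 / 6 : ℝ) * VV 1 * fm m from funext kap_fm, h0] at h3
    simp at h3
  exact (summable_mul_left_iff h2).1 h1

theorem fm_nonneg (m : ℕ) : 0 ≤ fm m := by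
  unfold fm gm
  refine mul_nonneg (prod_nonneg fun p hp => ?_) (by positivity)
  have hpp := Nat.prime_of_mem_primeFactors hp
  exact div_nonneg (rho_pos hpp _).le (rho_pos hpp _).le

/-- **the Euler product for the total mass** -/
theorem kap_euler : Multipliable (fun p : Nat.Primes => Ef p) ∧
    ∑' m, kap m = 1728 ^ (5 / 6 : ℝ) / 3456 * VV 1 * ∏' p : Nat.Primes, Ef p := by
  have h1 : HasProd (fun p : Nat.Primes => ∑' e : ℕ, fm ((p : ℕ) ^ e)) (∑' n, fm n) := by
    refine EulerProduct.eulerProduct_hasProd ?_ ?_ ?_ ?_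
    · unfold fm
      rw [gm_one, Nat.cast_one, Real.one_rpow, one_mul]
    · intro m n h
      unfold fm
      rw [gm_mul h, Nat.cast_mul, Real.mul_rpow (Nat.cast_nonneg m) (Nat.cast_nonneg n)]
      ring
    · exact fm_summable.congr fun m => (Real.norm_of_nonneg (fm_nonneg m)).symm
    · unfold fm
      rw [Nat.cast_zero, Real.zero_rpow (by norm_num), mul_zero]
  have h2 : (fun p : Nat.Primes => ∑' e : ℕ, fm ((p : ℕ) ^ e)) =
      fun p : Nat.Primes => Ef p / rho p 0 := funext fun p => (fm_sum p.2).tsum_eq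
  rw [h2] at h1
  have h3 : HasProd (fun p : Nat.Primes => rho p 0) (3456 * dlt 1) := by
    have h4 := (multipliable_rho 1).hasProd
    have h5 := dlt_eq 1 le_rfl
    have h6 : ∀ p : ℕ, (1 : ℕ).factorization p = 0 := fun p => by simp
    simp only [h6] at h4 h5
    rw [h5]
    have h7 : (3456 : ℝ) * (1 / 3456 * ∏' p : Nat.Primes, rho p 0) = ∏' p : Nat.Primes, rho p 0 := by
      ring
    rw [h7]
    exact h4
  have h4 := h1.mul h3
  have h5 : (fun p : Nat.Primes => Ef p / rho p 0 * rho p 0) = fun p : Nat.Primes => Ef p :=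
    funext fun p => div_mul_cancel₀ _ (rho_pos p.2 0).ne'
  rw [h5] at h4
  refine ⟨h4.multipliable, ?_⟩
  rw [h4.tprod_eq, show kap = fun m => dlt 1 * 1728 ^ (5 / 6 : ℝ) * VV 1 * fm m from funext kap_fm,
    tsum_mul_left]
  ring

end Pool.Agent.L0h45.EP
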