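import Mathlib
import Pool.Agent.L0h45.EP.Eul

/-!
# The explicit index law
-/

set_option autoImplicit false

namespace Pool.Agent.L0h45.EP

open Finset Filter Topology
open Pool.Agent.L0h45.DH
open Pool.Agent.R417.LD (cond)


/-- the explicit densities -/
noncomputable def dlx (m : ℕ) : ℝ := 1 / 3456 * ∏' p : Nat.Primes, rho p (m.factorization p)

/-- the area of the region `|t³ - s²| ≤ 1` -/
noncomputable def AA : ℝ := 2 * ∫ t : ℝ, (√(max (t ^ 3 + 1) 0) - √(max (t ^ 3 - 1) 0))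

/-- the explicit weights -/
noncomputable def ka (m : ℕ) : ℝ := dlx m * (1728 * m) ^ (5 / 6 : ℝ) * AA

theorem VV_AA : VV 1 = AA := rfl

theorem ka_kap (m : ℕ) : ka m = kap m := by
  rcases Nat.eq_zero_or_pos m with h | h
  · subst h
    rw [kap_zero]
    unfold ka
    rw [Nat.cast_zero, mul_zero, Real.zero_rpow (by norm_num), mul_zero, zero_mul]
  · rw [kap_eq m h, dlt_eq m h, VV_AA]
    rfl

/-- the explicit law of the index -/
theorem law_explicit :
    (∀ m : ℕ, 1 ≤ m → Multipliable (fun p : Nat.Primes => rho p (m.factorization p)) ∧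
      Tendsto (fun X : ℝ => ((Cv fun W => |(W.c₄ : ℝ)| ≤ X ^ 2 ∧
        |(W.c₆ : ℝ)| ≤ X ^ 3 ∧ W.Δ.natAbs = m * cond W).ncard : ℝ) / (4 * X ^ 5)) atTop
        (𝓝 (dlx m))) ∧
    (∀ β : ℝ, 1 < β → β < 10 / 7 → ∀ S : Set ℕ,
      Tendsto (fun Z : ℝ => ((Cv fun W => (cond W : ℝ) ≤ Z ∧ ht W ≤ Z ^ β ∧
        ∃ m ∈ S, W.Δ.natAbs = m * cond W).ncard : ℝ) / Z ^ (5 / 6 : ℝ)) atTop
        (𝓝 (∑' m, S.indicator ka m))) ∧
    Summable ka ∧ Multipliable (fun p : Nat.Primes => Ef p) ∧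
    ∑' m, ka m = 1728 ^ (5 / 6 : ℝ) / 3456 * AA * ∏' p : Nat.Primes, Ef p ∧ 0 < ∑' m, ka m := by
  have hk : ka = kap := funext ka_kap
  rw [hk]
  refine ⟨?_, ?_, kap_summable, kap_euler.1, kap_euler.2, kap_pos⟩
  · intro m hm
    refine ⟨multipliable_rho m, ?_⟩
    simp only [cv_NB]
    have := dlt_box m hm
    rw [dlt_eq m hm] at this
    exact this
  · intro β h1 h2 S
    simp only [cv_FS]
    exact (law_S β h1 h2 S).2

end Pool.Agent.L0h45.EP
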